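import Pool.Agent.N922.PZ.Stm
import Pool.Agent.N896.PQ.Sh7
import Pool.Agent.N863.PZ.One

/-!
# Part DES of project PZ, with the hypothesis of irreducibility, and part ONE (helper863's proof)
-/

set_option autoImplicit false
set_option linter.all false

open Polynomial

namespace Pool.Agent.N922.PZ

open Pool.Agent.Y723.HJ (CR OddM HF clmap mapR CC mi bar nm cl)
open Pool.Agent.N783.PQ
open Pool.Agent.N922.PY (Good fK f0)
open Pool.Agent.N896.PQ (hf_of jmap_comp jmap_sq charQB)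

theorem des {g : ℕ} {a : Fin (2 * g) → ℤ} (ha : Irreducible (fol a ℚ)) (n : ℕ) (K : Type) [Field K]
    [Algebra ℚ K] (T : Jac a QB) (P : Option (K × K)) (hT : n • T = 0)
    (h : LocalDescent a n K (fun σ => act a σ T - T) P) :
    ∃ R : Jac a (AlgebraicClosure K), n • R = ptJ a K P ∧
      ∀ τ : AlgebraicClosure K ≃ₐ[K] AlgebraicClosure K,
        jmap a (τ : AlgebraicClosure K →+* AlgebraicClosure K) R = R := by
  haveI := Pool.Agent.N896.PQ.galQB
  obtain ⟨φ, res, R, hR1, hres, hR2⟩ : ∃ (φ : QB →+* AlgebraicClosure K)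
      (res : (AlgebraicClosure K ≃ₐ[K] AlgebraicClosure K) → GQ) (R : Jac a (AlgebraicClosure K)),
      n • R = ptJ a K P ∧ (∀ τ x, τ (φ x) = φ (res τ x)) ∧
      ∀ τ : AlgebraicClosure K ≃ₐ[K] AlgebraicClosure K, jmap a φ (act a (res τ) T - T) =
        jmap a (τ : AlgebraicClosure K →+* AlgebraicClosure K) R - R := by
    obtain ⟨ι⟩ : Nonempty (QB →ₐ[ℚ] AlgebraicClosure K) := ⟨IsAlgClosed.lift⟩
    obtain ⟨R, hR1, hR2⟩ := h ι
    choose res hres using Pool.Agent.Y723.HJ.exists_restrict (K := ℚ) (Ω := QB) (F := K)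
      (Ω' := AlgebraicClosure K) ι
    exact ⟨ι, res, R, hR1, hres, fun τ => hR2 τ (res τ) (hres τ)⟩
  haveI : CharZero K := algebraRat.charZero K
  haveI : CharZero QB := charQB
  haveI : CharZero (AlgebraicClosure K) :=
    charZero_of_injective_algebraMap (algebraMap K (AlgebraicClosure K)).injective
  haveI : HF (fol a (AlgebraicClosure K)) := hf_of ha _
  haveI : HF (fol a QB) := hf_of ha _
  obtain ⟨V, hV⟩ : ∃ V, V = jmap a φ T := ⟨_, rfl⟩
  refine ⟨R - V, ?_, fun τ => ?_⟩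
  · rw [smul_sub, hR1, hV, ← map_nsmul, hT, map_zero, sub_zero]
  · have e2 : jmap a φ (act a (res τ) T) =
        jmap a (τ : AlgebraicClosure K →+* AlgebraicClosure K) V := by
      rw [hV]
      exact jmap_sq ((res τ) : QB →+* QB) φ φ
        (τ : AlgebraicClosure K →+* AlgebraicClosure K) (fun x => (hres τ x).symm) T
    have e := hR2 τ
    rw [map_sub, e2, ← hV] at e
    rw [map_sub]
    obtain ⟨A, hA⟩ : ∃ A, A = jmap a (τ : AlgebraicClosure K →+* AlgebraicClosure K) R := ⟨_, rfl⟩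
    obtain ⟨B, hB⟩ : ∃ B, B = jmap a (τ : AlgebraicClosure K →+* AlgebraicClosure K) V := ⟨_, rfl⟩
    rw [← hA, ← hB] at e ⊢
    have e6 : A = B - V + R := by
      rw [e]; abel
    rw [e6]
    abel

/-- helper863's proof -/
theorem one' (h1 : S_SEL) (h3 : S_RTC) (h4 : S_REA) (h5 : Pool.Agent.N922.PY.S_LOC) : S_ONE := by
  intro a hirr hz hcg P Pr hP hPr hs
  refine ⟨?_, ?_⟩
  · by_contra hne
    obtain ⟨⟨x, y⟩, hxy⟩ := Option.ne_none_iff_exists'.1 hne
    set f : ℤ_[2][X] := (pol a).map (Int.castRingHom ℤ_[2]) with hf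
    have hfK : fK f = fol a ℚ_[2] := by
      show ((pol a).map (Int.castRingHom ℤ_[2])).map (algebraMap ℤ_[2] ℚ_[2]) = _
      rw [Polynomial.map_map]
      congr 1
    haveI hHF : HF (fol a ℚ_[2]) := Pool.Agent.N896.PQ.hf_of hirr _
    haveI hHF' : HF (fK f) := by
      rw [hfK]
      exact hHF
    have hgood : Good f := by
      refine ⟨(pol_monic a).map _, ?_, ?_⟩
      · rw [hf, (pol_monic a).natDegree_map, pol_natDegree]
      · intro j
        obtain ⟨c, hc⟩ := hcg j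
        refine ⟨(c : ℤ_[2]), ?_⟩
        rw [hf, coeff_map]
        have := congrArg (fun t : ℤ => (t : ℤ_[2])) hc
        push_cast at this
        simpa using this
    have hpt : y ^ 2 = (fol a ℚ_[2]).eval x := hP 2 x y hxy
    obtain ⟨k, hk⟩ := h5 f hgood x y (by rw [hfK]; exact hpt)
    obtain ⟨T, hT, hloc, _⟩ := Pool.Agent.N863.PZ.key h1 a hirr hz P Pr k (hs k)
    have hl := hloc 2
    rw [hxy] at hl
    obtain ⟨R, hR1, hR2⟩ := des hirr (2 ^ k) ℚ_[2] T _ hT hl
    obtain ⟨d, hd⟩ := h3 2 a (2 ^ k) ℚ_[2] x y R hirr hpt hR1 hR2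
    have hk' : ∀ (q : ℚ_[2][X]) (hq : fK f = q) [HF q] (d : ClassGroup (CR q)),
        d ^ 2 ^ k ≠ cl (mi q (X - C x) (C y)) := by
      intro q hq _ d
      subst hq
      exact hk d
    exact hk' _ hfK d hd
  · intro x y hxy α hα
    obtain ⟨T, hT, _, hloc⟩ := Pool.Agent.N863.PZ.key h1 a hirr hz P Pr 1 (hs 1)
    rw [hxy] at hloc
    obtain ⟨R, hR1, hR2⟩ := des hirr (2 ^ 1) ℝ T _ hT hloc
    haveI : HF (fol a ℝ) := Pool.Agent.N896.PQ.hf_of hirr _
    have hpt : y ^ 2 = (fol a ℝ).eval x := hPr x y hxy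
    obtain ⟨d, hd⟩ := h3 2 a (2 ^ 1) ℝ x y R hirr hpt hR1 hR2
    rw [pow_one] at hd
    exact h4 (fol a ℝ) x y d hpt hd α hα

end Pool.Agent.N922.PZ
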