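import Pool.Agent.N922.PY.Stm

/-!
# Adelic points of curves of genus two and 2-power descent: statements of the parts

Project PZ (helper922), after project PY. `a : Fin (2 g) → ℤ`, `C : y ^ 2 = f(x)`,
`f = x ^ (2 g + 1) + a_(2 g - 1) x ^ (2 g - 1) + ... + a_0`, `J` its Jacobian.
-/

set_option autoImplicit false
set_option linter.all false

open Polynomial
open scoped Classical

namespace Pool.Agent.N922.PZ

open Pool.Agent.Y723.HJ (CR OddM HF clmap mapR CC mi bar nm cl)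
open Pool.Agent.N783.PQ (pol fol Cg Ht SelZero Jac jmap act QB GQ IsCocycle IsShaCocycle JacQ)

/-- A point of the projective curve `y ^ 2 = f(x)` over `K` is the point at infinity (`none`) or an
affine point `(x, y)`. -/
def OnC {g : ℕ} (a : Fin (2 * g) → ℤ) (K : Type) [Field K] (P : Option (K × K)) : Prop :=
  ∀ x y : K, P = some (x, y) → y ^ 2 = (fol a K).eval x

/-- The class of the divisor `P - ∞`, for an affine point `P = (x, y)`, in the Jacobian: the class of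
the ideal of the point. (`HF`: `f` has no multiple roots.) -/
noncomputable def ptCls {g : ℕ} (a : Fin (2 * g) → ℤ) (L : Type) [Field L] (x y : L) : Jac a L :=
  if h : HF (fol a L) then Additive.ofMul (cl (mi (fol a L) (X - C x) (C y))) else 0

/-- The class of `P - ∞` over an algebraic closure of `K`, for a point `P` over `K`. -/
noncomputable def ptJ {g : ℕ} (a : Fin (2 * g) → ℤ) (K : Type) [Field K] :
    Option (K × K) → Jac a (AlgebraicClosure K)
  | none => 0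
  | some (x, y) => ptCls a (AlgebraicClosure K) (algebraMap K _ x) (algebraMap K _ y)

/-- The restriction of the class of the cocycle `c`, with values in `J[n]`, to the absolute Galois
group of the completion `K` (`ℚ_p` or `ℝ`) is the image of the point `P` of `C(K)` under the
connecting homomorphism `J(K) → H^1(K, J[n])`, that is, `P` lifts to a point over `K` of the
covering of `C` given by `c` (the pull-back of the `n`-covering of `J`). -/
def LocalDescent {g : ℕ} (a : Fin (2 * g) → ℤ) (n : ℕ) (K : Type) [Field K] [Algebra ℚ K]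
    (c : GQ → Jac a QB) (P : Option (K × K)) : Prop :=
  ∀ ι : QB →ₐ[ℚ] AlgebraicClosure K, ∃ R : Jac a (AlgebraicClosure K), n • R = ptJ a K P ∧
    ∀ (τ : AlgebraicClosure K ≃ₐ[K] AlgebraicClosure K) (σ : GQ),
      (∀ x : QB, τ (ι x) = ι (σ x)) →
      jmap a (ι : QB →+* AlgebraicClosure K) (c σ) =
        jmap a (τ : AlgebraicClosure K →+* AlgebraicClosure K) R - R

/-- The adelic point `(P_p), P_∞` survives the `n`-descent: it lifts to an adelic point of one of the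
`n`-coverings of `C`. -/
def Survives {g : ℕ} (a : Fin (2 * g) → ℤ) (n : ℕ)
    (P : ∀ (p : ℕ) [Fact p.Prime], Option (ℚ_[p] × ℚ_[p])) (Pr : Option (ℝ × ℝ)) : Prop :=
  ∃ c : GQ → Jac a QB, IsCocycle a c ∧ (∀ σ, n • c σ = 0) ∧
    (∀ (p : ℕ) [Fact p.Prime], LocalDescent a n ℚ_[p] c (P p)) ∧ LocalDescent a n ℝ c Pr

/-- Part SEL. The `2 ^ k`-Selmer groups are zero. -/
def S_SEL : Prop := ∀ (g : ℕ) (a : Fin (2 * g) → ℤ), Irreducible (fol a ℚ) → SelZero (pol a) →
  ∀ (k : ℕ) (c : GQ → Jac a QB), IsShaCocycle a c → (∀ σ, 2 ^ k • c σ = 0) →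
    ∃ T : Jac a QB, 2 ^ k • T = 0 ∧ ∀ σ, c σ = act a σ T - T

/-- Part DES. Descent at one place. -/
def S_DES : Prop := ∀ (g : ℕ) (a : Fin (2 * g) → ℤ) (n : ℕ) (K : Type) [Field K] [CharZero K]
  [Algebra ℚ K] (T : Jac a QB) (P : Option (K × K)), n • T = 0 →
  LocalDescent a n K (fun σ => act a σ T - T) P →
  ∃ R : Jac a (AlgebraicClosure K), n • R = ptJ a K P ∧
    ∀ τ : AlgebraicClosure K ≃ₐ[K] AlgebraicClosure K,
      jmap a (τ : AlgebraicClosure K →+* AlgebraicClosure K) R = R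

/-- Part RTC. Invariant classes come from classes over `K`. -/
def S_RTC : Prop := ∀ (g : ℕ) (a : Fin (2 * g) → ℤ) (n : ℕ) (K : Type) [Field K] [CharZero K]
  [HF (fol a K)] (x y : K) (R : Jac a (AlgebraicClosure K)), Irreducible (fol a ℚ) →
  y ^ 2 = (fol a K).eval x → n • R = ptJ a K (some (x, y)) →
  (∀ τ : AlgebraicClosure K ≃ₐ[K] AlgebraicClosure K,
      jmap a (τ : AlgebraicClosure K →+* AlgebraicClosure K) R = R) →
  ∃ d : ClassGroup (CR (fol a K)), d ^ n = cl (mi (fol a K) (X - C x) (C y))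

/-- Part REA. The real points whose classes are divisible by two. -/
def S_REA : Prop := ∀ (f : ℝ[X]) [HF f] (x y : ℝ) (d : ClassGroup (CR f)), y ^ 2 = f.eval x →
  d ^ 2 = cl (mi f (X - C x) (C y)) → ∀ α : ℝ, f.eval α = 0 → α ≤ x

/-- Part ONE. One curve. -/
def S_ONE : Prop := ∀ a : Fin (2 * 2) → ℤ, Irreducible (fol a ℚ) → SelZero (pol a) →
  Cg 4 (pol a) Pool.Agent.N922.PY.f0 →
  ∀ (P : ∀ (p : ℕ) [Fact p.Prime], Option (ℚ_[p] × ℚ_[p])) (Pr : Option (ℝ × ℝ)),
  (∀ (p : ℕ) [Fact p.Prime], OnC a ℚ_[p] (P p)) → OnC a ℝ Pr →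
  (∀ k : ℕ, Survives a (2 ^ k) P Pr) →
  P 2 = none ∧ ∀ x y : ℝ, Pr = some (x, y) → ∀ α : ℝ, (fol a ℝ).eval α = 0 → α ≤ x

/-- The theorem. -/
def S_FINAL : Prop := ∃ c : ℝ, 0 < c ∧ ∃ B₀ : ℕ, ∀ B ≥ B₀,
  {a : Fin (2 * 2) → ℤ | ∀ i, |a i| ≤ (B : ℤ) ^ (5 - (i : ℕ))}.Finite ∧
  c * ({a : Fin (2 * 2) → ℤ | ∀ i, |a i| ≤ (B : ℤ) ^ (5 - (i : ℕ))}.ncard : ℝ) ≤
    ({a : Fin (2 * 2) → ℤ | (∀ i, |a i| ≤ (B : ℤ) ^ (5 - (i : ℕ))) ∧
      Irreducible (fol a ℚ) ∧ SelZero (pol a) ∧ Cg 4 (pol a) Pool.Agent.N922.PY.f0}.ncard : ℝ)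

end Pool.Agent.N922.PZ
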