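import Pool.Agent.N922.PY.Asm
import Pool.Agent.N922.PZ.Stm
import Pool.Agent.N922.PZ.Des
import Pool.Agent.N390.PZ.SEL
import Pool.Agent.N681.PZ.RTC
import Pool.Agent.N574.PZ.REA
import Pool.Agent.N914.PZ.Final

/-!
# Assembly of project PZ (helper922)
-/

set_option autoImplicit false

namespace Pool.Agent.N922.PZ

theorem one : S_ONE :=
  one' (Pool.Agent.N390.PZ.SEL.sel Pool.Agent.N783.PQ.rep) Pool.Agent.N681.PZ.rtc
    Pool.Agent.N574.PZ.rea Pool.Agent.N922.PY.loc

theorem final : S_FINAL := Pool.Agent.N914.PZ.final Pool.Agent.N922.PY.main4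

end Pool.Agent.N922.PZ
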